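import Mathlib
import Pool.Agent.H29.Berg2

namespace Pool.Agent.Results.MP_232e98_an.Min

open Pool.Agent.H29
open scoped ComplexConjugate ComplexOrder

/-- A kernel: a positive semidefinite function. -/
def IsKer {X : Type} (f : X → X → ℂ) : Prop := (Matrix.of f).PosSemidef

/-- Complete Pick kernels without zeros. -/
def IsCP {X : Type} (s : X → X → ℂ) : Prop :=
  IsKer s ∧ (∀ z w, s z w ≠ 0) ∧ ∃ (δ : X → ℂ) (F : X → X → ℂ), (∀ z, δ z ≠ 0) ∧ IsKer F ∧
    (∀ x, (F x x).re < 1) ∧ ∀ z w, s z w = δ z * conj (δ w) / (1 - F z w)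

/-- `s` is a certificate for `k`. -/
def Cert {X : Type} (k s : X → X → ℂ) : Prop :=
  IsCP s ∧ ∃ h, IsKer h ∧ ∀ z w, k z w = (1 - h z w) * s z w

/-- `s` is a minimum certificate for `k`. -/
def MinCert {X : Type} (k s : X → X → ℂ) : Prop :=
  Cert k s ∧ ∀ s', Cert k s' → IsKer fun z w => s' z w / s z w

/-- The disc of radius `1/√2`. -/
abbrev D : Type := {z : ℂ // ‖z‖ < 1 / √2}

/-- The Bergman kernel on `D`. -/
noncomputable def berg (z w : D) : ℂ := ((1 - z.1 * conj w.1) ^ 2)⁻¹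

lemma iff (z : ℂ) : ‖z‖ < 1 / √2 ↔ ‖z‖ ^ 2 < 1 / 2 := by
  rw [← Real.lt_sqrt (norm_nonneg _)]; simp

lemma x_lt (z w : D) : ‖z.1 * conj w.1‖ < 1 / 2 := by
  rw [norm_mul, Complex.norm_conj]
  nlinarith [(iff _).1 z.2, (iff _).1 w.2, sq_nonneg (‖z.1‖ - ‖w.1‖)]

lemma x2 (z w : D) : ‖2 * (z.1 * conj w.1)‖ < 1 := by
  rw [norm_mul, Complex.norm_ofNat]; linarith [x_lt z w]

theorem result : MinCert berg fun z w => (1 - 2 * (z.1 * conj w.1))⁻¹ := by
  have Kx : Ker.K fun z w : D => z.1 * conj w.1 := Ker.dyad fun z : D => z.1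
  have K2 : Ker.K fun z w : D => 2 * (z.1 * conj w.1) :=
    ((Ker.const (t := 2) (by norm_num)).mul Kx).congr fun _ _ => by simp
  have x1 : ∀ z w : D, ‖z.1 * conj w.1‖ < 1 := fun z w => by linarith [x_lt z w]
  refine ⟨⟨⟨K2.geom x2, fun z w => inv_ne_zero (Berg.ne1 (x2 z w)), fun _ => 1, _,
    fun _ => one_ne_zero, K2, fun x => (Complex.re_le_norm _).trans_lt (x2 x x),
    fun z w => by simp⟩, _, (Kx.mul (Kx.geom x1)).pow 2, fun z w => ?_⟩, ?_⟩
  · have a1 := Berg.ne1 (x1 z w)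
    have a2 := Berg.ne1 (x2 z w)
    unfold berg
    beta_reduce
    generalize z.1 * conj w.1 = x at a1 a2 ⊢
    rw [eq_mul_inv_iff_mul_eq₀ a2]
    field_simp
    ring
  · rintro s ⟨⟨-, hs0, δ, F, hδ, hF, h1, hs⟩, h, hh, hb⟩
    have a0 : ∀ z w, 1 - F z w ≠ 0 := fun z w e => hs0 z w (by rw [hs, e, div_zero])
    have := Berg.main2 (fun z : D => z.1) (fun z => (iff _).1 z.2)
      (fun z hz => ⟨⟨z, (iff _).2 hz⟩, rfl⟩) hF h1 δ hδ
      ((Ker.K.mul hh (Ker.dyad δ)).congr fun z w => by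
        have e := hb z w
        rw [hs, berg] at e
        have := a0 z w
        rw [e]; field_simp; ring)
    exact (this.mul (Ker.dyad δ)).congr fun z w => by rw [hs]; field_simp

end Pool.Agent.Results.MP_232e98_an.Min
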